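import Pool.Agent.V5helper74.LRA.B

set_option autoImplicit false

namespace Pool.Agent.V5helper74.LRA

open Finset Pool.Agent.V5helper49.LR

/-- the final estimate -/
theorem fin_est (L : ℝ) (h1 : 1000 ≤ L) (h2 : 5504 ≤ L ^ (23 / 50 : ℝ)) (h3 : Real.log L ≤ L ^ (1 / 2 : ℝ))
    (j M N : ℝ) (hj0 : 0 ≤ j) (hj : j ≤ L ^ (1 / 25 : ℝ)) (hM : 0 ≤ M) (hMN : M ≤ N) (hN : Real.exp (L / 4) ≤ N) :
    Real.exp (800 / L ^ 33) * (M * Real.exp (40 * j / L) + Real.exp (8 * j * (2 + 40 * Real.log L))) ≤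
      M + N * L ^ (-(1 / 2) : ℝ) := by
  have hL0 : 0 < L := by linarith
  obtain ⟨h, hh⟩ : ∃ h, h = L ^ (-(1 / 2) : ℝ) := ⟨_, rfl⟩
  obtain ⟨r, hr⟩ : ∃ r, r = L ^ (1 / 2 : ℝ) := ⟨_, rfl⟩
  obtain ⟨g, hg⟩ : ∃ g, g = L ^ (23 / 50 : ℝ) := ⟨_, rfl⟩
  obtain ⟨a, ha⟩ : ∃ a, a = L ^ (1 / 25 : ℝ) := ⟨_, rfl⟩
  rw [← hh]
  rw [← hr] at h3
  rw [← hg] at h2
  rw [← ha] at hj
  have hh0 : 0 < h := by rw [hh]; positivity
  have hr0 : 0 < r := by rw [hr]; positivity
  have hg0 : 0 < g := by rw [hg]; positivity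
  have ha0 : 0 < a := by rw [ha]; positivity
  have hhr : h * r = 1 := by
    rw [hh, hr, ← Real.rpow_add hL0]
    norm_num
  have hrr : r * r = L := by
    rw [hr, ← Real.rpow_add hL0]
    norm_num
  have hagr : a * g * r = L := by
    rw [ha, hg, hr, ← Real.rpow_add hL0, ← Real.rpow_add hL0]
    norm_num
  have hr31 : 31 ≤ r := by nlinarith
  have hhL : h * L = r := by rw [← hrr, ← mul_assoc, hhr, one_mul]
  have hh1 : h ≤ 1 / 31 := by
    rw [le_div_iff₀ (by norm_num)]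
    nlinarith
  -- the first exponent
  have e1 : 40 * j / L ≤ h / 100 := by
    rw [div_le_div_iff₀ hL0 (by norm_num)]
    have : a * 5504 ≤ r := by
      have : a * g = r := by
        have h5 : a * g * r = r * r := by rw [hagr, hrr]
        exact mul_right_cancel₀ hr0.ne' h5
      nlinarith
    rw [hhL]
    nlinarith
  have e2 : 800 / L ^ 33 ≤ h / 100 := by
    rw [div_le_div_iff₀ (by positivity) (by norm_num)]
    have h4 : L ^ 3 ≤ L ^ 33 := pow_le_pow_right₀ (by linarith) (by norm_num)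
    have h5 : (1000 : ℝ) * 1000 ≤ L * L := by nlinarith
    have h6 : h * L ^ 3 = r * (L * L) := by
      have : h * L ^ 3 = h * L * (L * L) := by ring
      rw [this, hhL]
    have h7 : h * L ^ 3 ≤ h * L ^ 33 := mul_le_mul_of_nonneg_left h4 hh0.le
    nlinarith
  have e3 : 800 / L ^ 33 ≤ 1 := by linarith
  have p1 : (0 : ℝ) ≤ 800 / L ^ 33 := by positivity
  have p2 : (0 : ℝ) ≤ 40 * j / L := by positivity
  have q1 : Real.exp (800 / L ^ 33) * (M * Real.exp (40 * j / L)) ≤ M + N * (h / 25) := by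
    have h4 : Real.exp (800 / L ^ 33) * (M * Real.exp (40 * j / L)) = M * Real.exp (800 / L ^ 33 + 40 * j / L) := by
      rw [Real.exp_add]
      ring
    rw [h4]
    have h5 := exp_le (x := 800 / L ^ 33 + 40 * j / L) (by linarith) (by linarith)
    have h6 : Real.exp (800 / L ^ 33 + 40 * j / L) ≤ 1 + h / 25 := by linarith
    have h7 := mul_le_mul_of_nonneg_left h6 hM
    have h8 : M * (h / 25) ≤ N * (h / 25) := mul_le_mul_of_nonneg_right hMN (by positivity)
    linarith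
  have q2 : Real.exp (800 / L ^ 33) * Real.exp (8 * j * (2 + 40 * Real.log L)) ≤ N * (h / 2) := by
    rw [← Real.exp_add]
    have hlog0 : 0 ≤ Real.log L := Real.log_nonneg (by linarith)
    have h4 : 8 * j * (2 + 40 * Real.log L) ≤ L / 16 := by
      have h5 : 2 + 40 * Real.log L ≤ 42 * r := by linarith
      have h6 : 8 * j * (2 + 40 * Real.log L) ≤ 8 * a * (42 * r) := by
        apply mul_le_mul (by linarith) h5 (by positivity) (by positivity)
      have h7 : 5504 * (a * r) ≤ L := by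
        have : a * r * g = L := by rw [← hagr]; ring
        have h8 : 0 < a * r := by positivity
        nlinarith
      nlinarith
    have h9 : Real.exp (-(L / 62)) ≤ h := by
      have h10 : h = Real.exp (Real.log L * (-(1 / 2))) := by rw [hh, Real.rpow_def_of_pos hL0]
      rw [h10]
      apply Real.exp_le_exp.2
      have h11 : 31 * r ≤ L := by rw [← hrr]; nlinarith
      linarith
    have h12 : Real.exp (-1) ≤ 1 / 2 := by
      have := Real.exp_neg_one_lt_half
      linarith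
    calc Real.exp (800 / L ^ 33 + 8 * j * (2 + 40 * Real.log L)) ≤ Real.exp (L / 4 + (-(L / 62) + -1)) := by
          apply Real.exp_le_exp.2
          linarith
      _ = Real.exp (L / 4) * (Real.exp (-(L / 62)) * Real.exp (-1)) := by rw [Real.exp_add, Real.exp_add]
      _ ≤ N * (h * (1 / 2)) := by
          apply mul_le_mul hN _ (by positivity) (le_trans hM hMN)
          exact mul_le_mul h9 h12 (Real.exp_pos _).le hh0.le
      _ = N * (h / 2) := by ring
  have hN0 : 0 ≤ N := le_trans hM hMN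
  have q3 : N * (h / 25) + N * (h / 2) ≤ N * h := by
    have : 0 ≤ N * h := by positivity
    linarith
  rw [mul_add]
  linarith

theorem ev_par : ∃ X₀ : ℕ, ∀ X : ℕ, X₀ ≤ X → 1000 ≤ Real.log X ∧ 5504 ≤ Real.log X ^ (23 / 50 : ℝ) ∧
    Real.log (Real.log X) ≤ Real.log X ^ (1 / 2 : ℝ) := by
  have h1 : Filter.Tendsto (fun X : ℕ => Real.log X) Filter.atTop Filter.atTop :=
    Real.tendsto_log_atTop.comp tendsto_natCast_atTop_atTop
  have h2 : ∀ᶠ L : ℝ in Filter.atTop, 1000 ≤ L ∧ 5504 ≤ L ^ (23 / 50 : ℝ) ∧ Real.log L ≤ L ^ (1 / 2 : ℝ) := by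
    have a1 := Filter.eventually_ge_atTop (1000 : ℝ)
    have a2 := (tendsto_rpow_atTop (show (0 : ℝ) < 23 / 50 by norm_num)).eventually_ge_atTop (5504 : ℝ)
    have a3 := (isLittleO_log_rpow_atTop (show (0 : ℝ) < 1 / 2 by norm_num)).bound (show (0 : ℝ) < 1 by norm_num)
    filter_upwards [a1, a2, a3] with L b1 b2 b3
    refine ⟨b1, b2, ?_⟩
    rw [one_mul, Real.norm_eq_abs, Real.norm_eq_abs] at b3
    have b4 : |L ^ (1 / 2 : ℝ)| = L ^ (1 / 2 : ℝ) := abs_of_nonneg (Real.rpow_nonneg (by linarith) _)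
    rw [b4] at b3
    exact (le_abs_self _).trans b3
  exact Filter.eventually_atTop.1 (h1.eventually h2)

theorem t_AVG : S_AVG := by
  classical
  intro ε hε hε1
  obtain ⟨X₀, hX₀⟩ := ev_par
  refine ⟨X₀, fun X hX H T hH hT hk Q N M hHQ hQp hN hQN hMN => ?_⟩
  obtain ⟨g1, g2, g3⟩ := hX₀ X hX
  obtain ⟨L, hL⟩ : ∃ L, L = Real.log X := ⟨_, rfl⟩
  rw [← hL] at g1 g2 g3 hH hk ⊢
  have hL0 : 0 < L := by linarith
  have hX0 : (0 : ℝ) < X := by
    rcases Nat.eq_zero_or_pos X with h | h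
    · rw [hL, h] at g1
      norm_num at g1
    · exact_mod_cast h
  have hHL : (H : ℝ) + 1 ≤ 2 * L ^ 2 := by
    have h1 : L ^ (2 - ε) ≤ L ^ (2 : ℝ) := Real.rpow_le_rpow_of_exponent_le (by linarith) (by linarith)
    have h2 : L ^ (2 : ℝ) = L ^ 2 := Real.rpow_two L
    rw [h2] at h1
    nlinarith
  have hNexp : Real.exp (L / 4) ≤ N := by
    have h1 : (X : ℝ) ^ (1 / 4 : ℝ) = Real.exp (L / 4) := by
      rw [Real.rpow_def_of_pos hX0, ← hL]
      congr 1
      ring
    rw [← h1]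
    exact hN
  -- the squares
  obtain ⟨j, hj⟩ : ∃ j : ℝ, j = (T.card : ℝ) ^ 2 := ⟨_, rfl⟩
  have hj0 : 0 ≤ j := by rw [hj]; positivity
  have hjL : j ≤ L ^ (1 / 25 : ℝ) := by
    have h1 : (L ^ (1 / 50 : ℝ)) ^ 2 = L ^ (1 / 25 : ℝ) := by
      rw [← Real.rpow_natCast, ← Real.rpow_mul hL0.le]
      norm_num
    rw [hj, ← h1]
    exact pow_le_pow_left₀ (Nat.cast_nonneg _) hk 2
  have hz1 : L / 5 ≤ (z1 X : ℝ) := by
    have h1 : L / 4 < (z1 X : ℝ) + 1 := by
      have := Nat.lt_floor_add_one (Real.log X / 4)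
      rw [hL]
      exact this
    linarith
  have hz0 : 0 < z1 X := by
    have : (0 : ℝ) < z1 X := lt_of_lt_of_le (by positivity) hz1
    exact_mod_cast this
  obtain ⟨S, hS⟩ : ∃ S, S = (QQ X).filter (fun p => p ≤ ww X) := ⟨_, rfl⟩
  have hSm : ∀ p ∈ S, p.Prime ∧ z1 X < p ∧ p ≤ ww X ∧ ¬ p ∣ Q := by
    intro p hp
    rw [hS] at hp
    obtain ⟨h1, h2⟩ := mem_filter.1 hp
    obtain ⟨h3, h4⟩ := mem_filter.1 h1
    exact ⟨h4, (mem_Ioc.1 h3).1, h2, hQp p h1⟩
  have hS8 : ∀ p ∈ S, 8 * (T.card : ℝ) ^ 2 ≤ p := by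
    intro p hp
    have h1 : L / 4 < (p : ℝ) := by
      have h2 := Nat.lt_floor_add_one (Real.log X / 4)
      have h3 : z1 X + 1 ≤ p := (hSm p hp).2.1
      have h4 : ((z1 X : ℕ) : ℝ) + 1 ≤ p := by exact_mod_cast h3
      rw [hL]
      exact lt_of_lt_of_le h2 h4
    have h5 : 5504 * L ^ (1 / 25 : ℝ) ≤ L := by
      have h6 : L ^ (1 / 25 : ℝ) * L ^ (23 / 50 : ℝ) ≤ L := by
        rw [← Real.rpow_add hL0]
        calc L ^ ((1 / 25 : ℝ) + 23 / 50) ≤ L ^ (1 : ℝ) :=
              Real.rpow_le_rpow_of_exponent_le (by linarith) (by norm_num)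
          _ = L := Real.rpow_one L
      have h7 : 0 ≤ L ^ (1 / 25 : ℝ) := by positivity
      nlinarith
    rw [← hj]
    linarith
  -- the products
  have hA : ∏ p ∈ S, (1 + 8 * j / (p : ℝ) ^ 2) ≤ Real.exp (40 * j / L) := by
    have h1 : ∏ p ∈ S, (1 + 8 * j / (p : ℝ) ^ 2) ≤ Real.exp (∑ p ∈ S, 8 * j / (p : ℝ) ^ 2) := by
      rw [Real.exp_sum]
      refine Finset.prod_le_prod (fun p _ => by positivity) fun p _ => ?_
      have := Real.add_one_le_exp (8 * j / (p : ℝ) ^ 2)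
      linarith
    refine h1.trans (Real.exp_le_exp.2 ?_)
    have h2 := sumsq S (z1 X) hz0 fun p hp => (hSm p hp).2.1
    have h3 : ∑ p ∈ S, 8 * j / (p : ℝ) ^ 2 = 8 * j * ∑ p ∈ S, 1 / (p : ℝ) ^ 2 := by
      rw [Finset.mul_sum]
      exact Finset.sum_congr rfl fun p _ => by ring
    rw [h3]
    have h4 : (1 : ℝ) / z1 X ≤ 5 / L := by
      rw [div_le_div_iff₀ (lt_of_lt_of_le (by positivity) hz1) hL0]
      linarith
    calc 8 * j * ∑ p ∈ S, 1 / (p : ℝ) ^ 2 ≤ 8 * j * (5 / L) :=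
          mul_le_mul_of_nonneg_left (h2.trans h4) (by positivity)
      _ = 40 * j / L := by ring
  have hB : ∏ p ∈ S, (1 + 8 * j / (p : ℝ)) ≤ Real.exp (8 * j * (2 + 40 * Real.log L)) := by
    have h1 : ∏ p ∈ S, (1 + 8 * j / (p : ℝ)) ≤ Real.exp (∑ p ∈ S, 8 * j / (p : ℝ)) := by
      rw [Real.exp_sum]
      refine Finset.prod_le_prod (fun p _ => by positivity) fun p _ => ?_
      have := Real.add_one_le_exp (8 * j / (p : ℝ))
      linarith
    refine h1.trans (Real.exp_le_exp.2 ?_)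
    have h3 : ∑ p ∈ S, 8 * j / (p : ℝ) = 8 * j * ∑ p ∈ S, (p : ℝ)⁻¹ := by
      rw [Finset.mul_sum]
      exact Finset.sum_congr rfl fun p _ => by ring
    rw [h3]
    refine mul_le_mul_of_nonneg_left ?_ (by positivity)
    have h4 : ∑ p ∈ S, (p : ℝ)⁻¹ ≤ ((harmonic (ww X) : ℚ) : ℝ) := by
      rw [harmonic_eq_sum_Icc]
      push_cast
      refine Finset.sum_le_sum_of_subset_of_nonneg (fun p hp => ?_) fun i _ _ => by positivity
      exact mem_Icc.2 ⟨(hSm p hp).1.one_le, (hSm p hp).2.2.1⟩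
    refine h4.trans ((harmonic_le_one_add_log _).trans ?_)
    have h5 : (ww X : ℝ) ≤ 2 * L ^ 40 := by
      have h6 : (ww X : ℝ) < L ^ 40 + 1 := by
        rw [hL]
        exact Nat.ceil_lt_add_one (by rw [← hL]; positivity)
      have h7 : (1 : ℝ) ≤ L ^ 40 := one_le_pow₀ (by linarith)
      linarith
    have h8 : (0 : ℝ) < ww X := by
      have : L ^ 40 ≤ (ww X : ℝ) := by
        rw [hL]
        exact Nat.le_ceil _
      exact lt_of_lt_of_le (by positivity) this
    have h9 := Real.log_le_log h8 h5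
    rw [Real.log_mul (by norm_num) (by positivity), Real.log_pow] at h9
    have h10 : Real.log 2 < 1 := by
      have := Real.log_two_lt_d9
      linarith
    push_cast at h9
    linarith
  -- the sum of the products of the small primes
  have hsmall : ∑ δ ∈ range M, ∏ p ∈ S, (1 + 4 * (ov T (Q * (δ + 1)) p : ℝ) / p) ≤
      M * Real.exp (40 * j / L) + Real.exp (8 * j * (2 + 40 * Real.log L)) := by
    rcases T.eq_empty_or_nonempty with hTe | hTne
    · have h1 : ∀ δ, ∏ p ∈ S, (1 + 4 * (ov T (Q * (δ + 1)) p : ℝ) / p) = 1 := by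
        intro δ
        refine Finset.prod_eq_one fun p _ => ?_
        have h2 := ov_card T (Q * (δ + 1)) p
        rw [hTe, Finset.card_empty] at h2
        rw [hTe, Nat.le_zero.1 h2]
        simp
      simp only [h1]
      rw [Finset.sum_const, Finset.card_range, nsmul_eq_mul, mul_one]
      have h3 : 1 ≤ Real.exp (40 * j / L) := Real.one_le_exp (by positivity)
      have h4 := Real.exp_pos (8 * j * (2 + 40 * Real.log L))
      have h5 : (0 : ℝ) ≤ M := Nat.cast_nonneg _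
      nlinarith
    · have h1 : ∀ δ ∈ range M, ∏ p ∈ S, (1 + 4 * (ov T (Q * (δ + 1)) p : ℝ) / p) ≤ (1 / (T.card : ℝ) ^ 2) *
          ∑ e ∈ T ×ˢ T, ∏ p ∈ S, (1 + if p ∣ Q * (δ + 1) + e.1 - e.2 then 8 * (T.card : ℝ) ^ 2 / (p : ℝ) else 0) := by
        intro δ _
        refine P3 S T (Q * (δ + 1)) H hT ?_ hTne hS8 fun p hp => (hSm p hp).1.pos
        nlinarith [Nat.zero_le (Q * δ)]
      refine (Finset.sum_le_sum h1).trans ?_
      rw [← Finset.mul_sum, Finset.sum_comm]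
      have hTc : (0 : ℝ) < (T.card : ℝ) ^ 2 := by
        have : 0 < T.card := Finset.card_pos.2 hTne
        positivity
      have h2 : ∀ e ∈ T ×ˢ T, ∑ δ ∈ range M,
          ∏ p ∈ S, (1 + if p ∣ Q * (δ + 1) + e.1 - e.2 then 8 * (T.card : ℝ) ^ 2 / (p : ℝ) else 0) ≤
          M * Real.exp (40 * j / L) + Real.exp (8 * j * (2 + 40 * Real.log L)) := by
        intro e he
        obtain ⟨_, h4⟩ := mem_product.1 he
        have h5 := mem_range.1 (hT h4)
        have h6 := sum_prod S (fun p hp => (hSm p hp).1) Q e.1 e.2 M H (8 * (T.card : ℝ) ^ 2) (by positivity)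
          (fun p hp => (hSm p hp).2.2.2) (by omega) hHQ
        rw [← hj] at h6 ⊢
        refine h6.trans (add_le_add (mul_le_mul_of_nonneg_left hA (Nat.cast_nonneg _)) hB)
      have h3 := Finset.sum_le_card_nsmul _ _ _ h2
      rw [nsmul_eq_mul, Finset.card_product] at h3
      refine (mul_le_mul_of_nonneg_left h3 (by positivity)).trans (le_of_eq ?_)
      push_cast
      field_simp
  -- everything together
  have hbig : ∀ δ ∈ range M, ∏ p ∈ QQ X, (1 + cc T (Bs ε X) H (Q * (δ + 1)) p) ≤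
      Real.exp (800 / L ^ 33) * ∏ p ∈ S, (1 + 4 * (ov T (Q * (δ + 1)) p : ℝ) / p) := by
    intro δ hδ
    have h1 := mem_range.1 hδ
    rw [hS]
    have hD1 : H < Q * (δ + 1) := by nlinarith [Nat.zero_le (Q * δ)]
    have hD2 : Q * (δ + 1) ≤ X := (Nat.mul_le_mul_left Q (by omega)).trans hQN
    exact big ε X H (Q * (δ + 1)) T L hL (by linarith) hHL hT hD1 (by omega)
  refine (Finset.sum_le_sum hbig).trans ?_
  rw [← Finset.mul_sum]
  refine (mul_le_mul_of_nonneg_left hsmall (Real.exp_pos _).le).trans ?_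
  exact fin_est L g1 g2 g3 j M N hj0 hjL (Nat.cast_nonneg _) (by exact_mod_cast hMN) hNexp

end Pool.Agent.V5helper74.LRA
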