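import Pool.Agent.V5helper74.LRA.A

set_option autoImplicit false

namespace Pool.Agent.V5helper74.LRA

open Finset Pool.Agent.V5helper49.LR

theorem sumsq (F : Finset ℕ) (w : ℕ) (hw : 0 < w) (hF : ∀ p ∈ F, w < p) :
    ∑ p ∈ F, 1 / (p : ℝ) ^ 2 ≤ 1 / (w : ℝ) := by
  have h1 : F ⊆ Ioc w (max w (F.sup id)) := fun p hp => mem_Ioc.2 ⟨hF p hp, (Finset.le_sup (f := id) hp).trans
    (le_max_right _ _)⟩
  have h2 := sum_Ioc_inv_sq_le_sub (α := ℝ) (k := w) (n := max w (F.sup id)) hw.ne' (le_max_left _ _)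
  have h3 : ∑ p ∈ F, 1 / (p : ℝ) ^ 2 ≤ ∑ i ∈ Ioc w (max w (F.sup id)), ((i : ℝ) ^ 2)⁻¹ := by
    refine (Finset.sum_le_sum fun p _ => ?_).trans (Finset.sum_le_sum_of_subset_of_nonneg h1 fun i _ _ => by positivity)
    rw [one_div]
  have h4 : (0 : ℝ) ≤ ((max w (F.sup id) : ℕ) : ℝ)⁻¹ := by positivity
  have h5 : (1 : ℝ) / w = (w : ℝ)⁻¹ := one_div _
  rw [h5]
  linarith

/-- the prime can meet both intervals -/
def Bad (H D p : ℕ) : Prop := ∃ s ≤ H, ∃ s' ≤ H, p ∣ D + s - s'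

theorem bad_of_col {H D p : ℕ} (h : Col H D p) : Bad H D p := by
  obtain ⟨s, hs, s', hs', e⟩ := h
  refine ⟨s, hs, s', hs', ?_⟩
  rw [← e, add_comm D s]
  exact Nat.dvd_sub_mod _

theorem ov_card (T : Finset ℕ) (D p : ℕ) : ov T D p ≤ T.card := by
  classical
  have h1 : ((range p).filter (fun x => ¬ av T p x ∧ ¬ av T p ((x + D) % p))) ⊆ T.image fun t => t % p := by
    intro x hx
    obtain ⟨_, h2, _⟩ := mem_filter.1 hx
    unfold av at h2
    push Not at h2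
    obtain ⟨t, ht, e⟩ := h2
    exact mem_image.2 ⟨t, ht, e⟩
  have h2 := (Finset.card_le_card h1).trans Finset.card_image_le
  unfold ov
  convert h2

theorem ov_bad (T : Finset ℕ) (D p H : ℕ) (hT : T ⊆ range (H + 1)) (hD : H < D) (hb : ¬ Bad H D p) :
    ov T D p = 0 := by
  classical
  have h1 := ov_le T D p H hT hD
  have h2 : ((T ×ˢ T).filter fun e => p ∣ D + e.1 - e.2) = ∅ := by
    rw [Finset.filter_eq_empty_iff]
    intro e he h
    obtain ⟨h3, h4⟩ := mem_product.1 he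
    have h5 := Finset.mem_range.1 (hT h3)
    have h6 := Finset.mem_range.1 (hT h4)
    exact hb ⟨e.1, by omega, e.2, by omega, h⟩
  rw [h2] at h1
  simpa using h1

open Classical in
/-- the exponent -/
noncomputable def ff (H D p : ℕ) : ℝ :=
  8 * ((H : ℝ) + 1) ^ 2 / (p : ℝ) ^ 2 + if Bad H D p then 32 * ((H : ℝ) + 1) / p else 0

theorem cc_nonneg (T B : Finset ℕ) (H D p : ℕ) : 0 ≤ cc T B H D p := by
  unfold cc
  split_ifs <;> positivity

theorem cc_le (T B : Finset ℕ) (H D p : ℕ) (hT : T ⊆ range (H + 1)) (hD : H < D) : cc T B H D p ≤ ff H D p := by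
  unfold cc ff
  have h0 : (0 : ℝ) ≤ 8 * ((H : ℝ) + 1) ^ 2 / (p : ℝ) ^ 2 := by positivity
  have h1 : (0 : ℝ) ≤ 32 * ((H : ℝ) + 1) / p := by positivity
  split_ifs with hB hC hb hb hb
  · exact le_refl _
  · exact absurd (bad_of_col hC) hb
  · linarith
  · exact le_refl _
  · have h2 : (ov T D p : ℝ) ≤ (H : ℝ) + 1 := by
      have h3 := (ov_card T D p).trans (Finset.card_le_card hT)
      rw [Finset.card_range] at h3
      exact_mod_cast h3
    have h4 : 4 * (ov T D p : ℝ) / p ≤ 32 * ((H : ℝ) + 1) / p := by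
      apply div_le_div_of_nonneg_right _ (Nat.cast_nonneg p)
      have : (0 : ℝ) ≤ (ov T D p : ℝ) := Nat.cast_nonneg _
      linarith
    linarith
  · rw [ov_bad T D p H hT hD hb]
    simp only [Nat.cast_zero, mul_zero, zero_div, add_zero]
    exact h0

/-- the large primes -/
theorem big (ε : ℝ) (X H D : ℕ) (T : Finset ℕ) (L : ℝ) (hL : L = Real.log X) (hL1 : 1 ≤ L)
    (hH : (H : ℝ) + 1 ≤ 2 * L ^ 2) (hT : T ⊆ range (H + 1)) (hD : H < D) (hDX : D + H ≤ 2 * X) :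
    ∏ p ∈ QQ X, (1 + cc T (Bs ε X) H D p) ≤
      Real.exp (800 / L ^ 33) * ∏ p ∈ (QQ X).filter (fun p => p ≤ ww X), (1 + 4 * (ov T D p : ℝ) / p) := by
  classical
  have hL0 : 0 < L := by linarith
  have hww : L ^ 40 ≤ (ww X : ℝ) := by
    rw [hL]
    exact Nat.le_ceil _
  have hw0 : (0 : ℝ) < ww X := lt_of_lt_of_le (by positivity) hww
  have hw1 : 0 < ww X := by exact_mod_cast hw0
  rw [← Finset.prod_filter_mul_prod_filter_not (QQ X) (fun p => p ≤ ww X), mul_comm]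
  have hsm : ∏ p ∈ (QQ X).filter (fun p => p ≤ ww X), (1 + cc T (Bs ε X) H D p) =
      ∏ p ∈ (QQ X).filter (fun p => p ≤ ww X), (1 + 4 * (ov T D p : ℝ) / p) := by
    refine Finset.prod_congr rfl fun p hp => ?_
    have h1 : p ∉ Bs ε X := by
      intro h
      have h2 := (mem_Ioc.1 (mem_filter.1 h).1).1
      have h3 := (mem_filter.1 hp).2
      omega
    unfold cc
    rw [if_neg h1]
  rw [hsm]
  refine mul_le_mul_of_nonneg_right ?_ (Finset.prod_nonneg fun p _ => by positivity)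
  obtain ⟨F, hF⟩ : ∃ F, F = (QQ X).filter (fun p => ¬ p ≤ ww X) := ⟨_, rfl⟩
  rw [← hF]
  have hFm : ∀ p ∈ F, ww X < p ∧ p.Prime := by
    intro p hp
    rw [hF] at hp
    exact ⟨not_le.1 (mem_filter.1 hp).2, (mem_filter.1 (mem_filter.1 hp).1).2⟩
  have hle : ∏ p ∈ F, (1 + cc T (Bs ε X) H D p) ≤ Real.exp (∑ p ∈ F, ff H D p) := by
    rw [Real.exp_sum]
    refine Finset.prod_le_prod (fun p _ => by linarith [cc_nonneg T (Bs ε X) H D p]) fun p _ => ?_
    have h1 := Real.add_one_le_exp (ff H D p)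
    have h2 := cc_le T (Bs ε X) H D p hT hD
    linarith
  refine hle.trans (Real.exp_le_exp.2 ?_)
  unfold ff
  rw [Finset.sum_add_distrib]
  have hb1 : ∑ p ∈ F, 8 * ((H : ℝ) + 1) ^ 2 / (p : ℝ) ^ 2 ≤ 8 * ((H : ℝ) + 1) ^ 2 / ww X := by
    have h1 := sumsq F (ww X) hw1 fun p hp => (hFm p hp).1
    have h2 : ∑ p ∈ F, 8 * ((H : ℝ) + 1) ^ 2 / (p : ℝ) ^ 2 = 8 * ((H : ℝ) + 1) ^ 2 * ∑ p ∈ F, 1 / (p : ℝ) ^ 2 := by
      rw [Finset.mul_sum]
      exact Finset.sum_congr rfl fun p _ => by ring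
    rw [h2, div_eq_mul_one_div (8 * ((H : ℝ) + 1) ^ 2) (ww X : ℝ)]
    exact mul_le_mul_of_nonneg_left h1 (by positivity)
  -- the number of the bad primes
  have hcard : ((F.filter (Bad H D)).card : ℝ) ≤ ((H : ℝ) + 1) ^ 2 * (3 * L) := by
    have h1 : F.filter (Bad H D) ⊆ (range (H + 1) ×ˢ range (H + 1)).biUnion fun e => (D + e.1 - e.2).primeFactors := by
      intro p hp
      obtain ⟨h2, s, hs, s', hs', h3⟩ := mem_filter.1 hp
      refine mem_biUnion.2 ⟨(s, s'), mem_product.2 ⟨mem_range.2 (by omega), mem_range.2 (by omega)⟩, ?_⟩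
      exact Nat.mem_primeFactors.2 ⟨(hFm p h2).2, h3, by dsimp only; omega⟩
    have h2 := (Finset.card_le_card h1).trans Finset.card_biUnion_le
    have h3 : ((F.filter (Bad H D)).card : ℝ) ≤ ∑ e ∈ range (H + 1) ×ˢ range (H + 1),
        ((D + e.1 - e.2).primeFactors.card : ℝ) := by exact_mod_cast h2
    refine h3.trans ?_
    have h4 : ∀ e ∈ range (H + 1) ×ˢ range (H + 1), ((D + e.1 - e.2).primeFactors.card : ℝ) ≤ 3 * L := by
      intro e he
      obtain ⟨h5, h6⟩ := mem_product.1 he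
      have h5' := mem_range.1 h5
      have h6' := mem_range.1 h6
      have hpos : 0 < D + e.1 - e.2 := by omega
      have h7 := card_pf (D + e.1 - e.2) hpos
      have h8 : Real.log ((D + e.1 - e.2 : ℕ) : ℝ) ≤ Real.log 2 + L := by
        have h9 : ((D + e.1 - e.2 : ℕ) : ℝ) ≤ 2 * X := by
          have : D + e.1 - e.2 ≤ 2 * X := by omega
          exact_mod_cast this
        have h10 : (0 : ℝ) < ((D + e.1 - e.2 : ℕ) : ℝ) := by exact_mod_cast hpos
        have hX0 : (X : ℝ) ≠ 0 := by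
          intro h
          rw [h, mul_zero] at h9
          linarith
        have h11 := Real.log_le_log h10 h9
        rw [Real.log_mul (by norm_num) hX0, ← hL] at h11
        exact h11
      have h12 : (1 / 2 : ℝ) < Real.log 2 := by
        have := Real.log_two_gt_d9
        linarith
      have h13 : Real.log 2 < 1 := by
        have := Real.log_two_lt_d9
        linarith
      have hc0 : (0 : ℝ) ≤ ((D + e.1 - e.2).primeFactors.card : ℝ) := Nat.cast_nonneg _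
      by_contra hcon
      push Not at hcon
      nlinarith
    refine (Finset.sum_le_card_nsmul _ _ _ h4).trans (le_of_eq ?_)
    rw [Finset.card_product, Finset.card_range, nsmul_eq_mul]
    push_cast
    ring
  have hb2 : ∑ p ∈ F, (if Bad H D p then 32 * ((H : ℝ) + 1) / (p : ℝ) else 0) ≤
      ((H : ℝ) + 1) ^ 2 * (3 * L) * (32 * ((H : ℝ) + 1) / ww X) := by
    rw [← Finset.sum_filter]
    have h1 : ∀ p ∈ F.filter (Bad H D), 32 * ((H : ℝ) + 1) / (p : ℝ) ≤ 32 * ((H : ℝ) + 1) / ww X := by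
      intro p hp
      have h2 : (ww X : ℝ) ≤ p := by exact_mod_cast (hFm p (mem_filter.1 hp).1).1.le
      exact div_le_div_of_nonneg_left (by positivity) hw0 h2
    refine (Finset.sum_le_card_nsmul _ _ _ h1).trans ?_
    rw [nsmul_eq_mul]
    exact mul_le_mul_of_nonneg_right hcard (by positivity)
  have hH0 : (0 : ℝ) ≤ (H : ℝ) + 1 := by positivity
  have hH2 : ((H : ℝ) + 1) ^ 2 ≤ 4 * L ^ 4 := by
    calc ((H : ℝ) + 1) ^ 2 ≤ (2 * L ^ 2) ^ 2 := pow_le_pow_left₀ hH0 hH 2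
      _ = 4 * L ^ 4 := by ring
  have hH3 : ((H : ℝ) + 1) ^ 3 ≤ 8 * L ^ 6 := by
    calc ((H : ℝ) + 1) ^ 3 ≤ (2 * L ^ 2) ^ 3 := pow_le_pow_left₀ hH0 hH 3
      _ = 8 * L ^ 6 := by ring
  have hc1 : 8 * ((H : ℝ) + 1) ^ 2 / ww X ≤ 32 / L ^ 33 := by
    rw [div_le_div_iff₀ hw0 (by positivity)]
    have h1 : L ^ 4 * L ^ 33 ≤ L ^ 40 := by
      rw [← pow_add]
      exact pow_le_pow_right₀ hL1 (by norm_num)
    have h2 : 0 < L ^ 33 := by positivity
    nlinarith
  have hc2 : ((H : ℝ) + 1) ^ 2 * (3 * L) * (32 * ((H : ℝ) + 1) / ww X) ≤ 768 / L ^ 33 := by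
    have h0 : ((H : ℝ) + 1) ^ 2 * (3 * L) * (32 * ((H : ℝ) + 1) / ww X) = 96 * L * ((H : ℝ) + 1) ^ 3 / ww X := by ring
    rw [h0, div_le_div_iff₀ hw0 (by positivity)]
    have h1 : L * L ^ 6 * L ^ 33 = L ^ 40 := by ring
    have h2 : 0 < L * L ^ 33 := by positivity
    have h3 : 96 * L * ((H : ℝ) + 1) ^ 3 * L ^ 33 ≤ 96 * L * (8 * L ^ 6) * L ^ 33 := by
      have := mul_le_mul_of_nonneg_right hH3 h2.le
      nlinarith
    have h4 : 96 * L * (8 * L ^ 6) * L ^ 33 = 768 * L ^ 40 := by ring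
    rw [h4] at h3
    linarith
  have hsum : (800 : ℝ) / L ^ 33 = 32 / L ^ 33 + 768 / L ^ 33 := by ring
  rw [hsum]
  exact add_le_add (hb1.trans hc1) (hb2.trans hc2)

end Pool.Agent.V5helper74.LRA
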