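import Pool.Agent.V5helper49.LR.Stm

set_option autoImplicit false

namespace Pool.Agent.V5helper74.LRA

open Finset Pool.Agent.V5helper49.LR

/-- the number of prime factors -/
theorem card_pf (m : ℕ) (hm : 0 < m) : (m.primeFactors.card : ℝ) * Real.log 2 ≤ Real.log m := by
  have h1 : 2 ^ m.primeFactors.card ≤ m := by
    calc 2 ^ m.primeFactors.card ≤ ∏ p ∈ m.primeFactors, p :=
          Finset.pow_card_le_prod _ _ _ (fun p hp => (Nat.prime_of_mem_primeFactors hp).two_le)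
      _ ≤ m := Nat.le_of_dvd hm (Nat.prod_primeFactors_dvd m)
  have h2 : (2 : ℝ) ^ m.primeFactors.card ≤ m := by exact_mod_cast h1
  have h3 := Real.log_le_log (by positivity) h2
  rwa [Real.log_pow] at h3

/-- an arithmetic progression -/
theorem cnt_ap (d Q t t' M H : ℕ) (hd : 0 < d) (hc : Nat.Coprime d Q) (ht' : t' ≤ H) (hQ : H < Q) :
    (((range M).filter fun δ => d ∣ Q * (δ + 1) + t - t').card : ℝ) ≤ M / d + 1 := by
  classical
  rcases ((range M).filter fun δ => d ∣ Q * (δ + 1) + t - t').eq_empty_or_nonempty with h | ⟨v, hv⟩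
  · rw [h]
    simp only [Finset.card_empty, Nat.cast_zero]
    positivity
  · have hv' := (mem_filter.1 hv).2
    have h1 : ((range M).filter fun δ => d ∣ Q * (δ + 1) + t - t') ⊆ (range M).filter (fun δ => δ ≡ v [MOD d]) := by
      intro δ hδ
      obtain ⟨h2, h3⟩ := mem_filter.1 hδ
      refine mem_filter.2 ⟨h2, ?_⟩
      have e : ∀ n, t' ≤ Q * (n + 1) + t := fun n => by nlinarith [Nat.zero_le (Q * n)]
      have a1 : ((Q * (δ + 1) + t - t' : ℕ) : ℤ) = Q * (δ + 1) + t - t' := by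
        rw [Nat.cast_sub (e δ)]; push_cast; ring
      have a2 : ((Q * (v + 1) + t - t' : ℕ) : ℤ) = Q * (v + 1) + t - t' := by
        rw [Nat.cast_sub (e v)]; push_cast; ring
      have a3 := dvd_sub (Int.natCast_dvd_natCast.2 h3) (Int.natCast_dvd_natCast.2 hv')
      rw [a1, a2] at a3
      have a4 : (Q : ℤ) * (δ + 1) + t - t' - (Q * (v + 1) + t - t') = Q * (δ - v) := by ring
      rw [a4] at a3
      have h5 : (d : ℤ) ∣ (δ : ℤ) - v := (Nat.isCoprime_iff_coprime.2 hc).dvd_of_dvd_mul_left a3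
      exact (Nat.modEq_iff_dvd.2 h5).symm
    have h2 := Finset.card_le_card h1
    have h2' : ((range M).filter (fun δ => δ ≡ v [MOD d])).card = M / d + if v % d < M % d then 1 else 0 := by
      rw [← Nat.count_eq_card_filter_range, Nat.count_modEq_card M hd v]
    rw [h2'] at h2
    have h3 : ((range M).filter fun δ => d ∣ Q * (δ + 1) + t - t').card ≤ M / d + 1 := by
      refine h2.trans ?_
      split_ifs <;> omega
    have h4 : ((M / d : ℕ) : ℝ) ≤ M / d := Nat.cast_div_le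
    have h5 : (((range M).filter fun δ => d ∣ Q * (δ + 1) + t - t').card : ℝ) ≤ ((M / d + 1 : ℕ) : ℝ) := by
      exact_mod_cast h3
    rw [Nat.cast_add, Nat.cast_one] at h5
    linarith

/-- the average of a product over prime divisors -/
theorem sum_prod (S : Finset ℕ) (hS : ∀ p ∈ S, p.Prime) (Q t t' M H : ℕ) (c : ℝ) (hc : 0 ≤ c)
    (hQ : ∀ p ∈ S, ¬ p ∣ Q) (ht' : t' ≤ H) (hHQ : H < Q) :
    ∑ δ ∈ range M, ∏ p ∈ S, (1 + if p ∣ Q * (δ + 1) + t - t' then c / (p : ℝ) else 0) ≤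
      M * ∏ p ∈ S, (1 + c / (p : ℝ) ^ 2) + ∏ p ∈ S, (1 + c / (p : ℝ)) := by
  classical
  have h1 : ∀ δ, ∏ p ∈ S, (1 + if p ∣ Q * (δ + 1) + t - t' then c / (p : ℝ) else 0) =
      ∑ q ∈ S.powerset, if (∏ p ∈ q, p) ∣ Q * (δ + 1) + t - t' then ∏ p ∈ q, (c / (p : ℝ)) else 0 := by
    intro δ
    rw [Finset.prod_one_add]
    refine Finset.sum_congr rfl fun q hq => ?_
    have hq' := Finset.mem_powerset.1 hq
    have h2 : (∀ p ∈ q, p ∣ Q * (δ + 1) + t - t') ↔ (∏ p ∈ q, p) ∣ Q * (δ + 1) + t - t' := by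
      constructor
      · intro h
        exact Finset.prod_primes_dvd _ (fun p hp => (hS p (hq' hp)).prime) h
      · intro h p hp
        exact (Finset.dvd_prod_of_mem _ hp).trans h
    rw [Finset.prod_ite_zero]
    exact if_congr h2 rfl rfl
  simp only [h1]
  rw [Finset.sum_comm, Finset.prod_one_add, Finset.prod_one_add, Finset.mul_sum, ← Finset.sum_add_distrib]
  refine Finset.sum_le_sum fun q hq => ?_
  have hq' := Finset.mem_powerset.1 hq
  rw [← Finset.sum_filter, Finset.sum_const, nsmul_eq_mul]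
  have h3 : 0 ≤ ∏ p ∈ q, (c / (p : ℝ)) := Finset.prod_nonneg fun p _ => by positivity
  have hpos : 0 < ∏ p ∈ q, p := Finset.prod_pos fun p hp => (hS p (hq' hp)).pos
  have hcop : Nat.Coprime (∏ p ∈ q, p) Q :=
    Nat.Coprime.prod_left fun p hp => ((hS p (hq' hp)).coprime_iff_not_dvd).2 (hQ p (hq' hp))
  have h4 := cnt_ap (∏ p ∈ q, p) Q t t' M H hpos hcop ht' hHQ
  refine (mul_le_mul_of_nonneg_right h4 h3).trans (le_of_eq ?_)
  have h5 : ∏ p ∈ q, (c / (p : ℝ) ^ 2) = (∏ p ∈ q, (c / (p : ℝ))) / ((∏ p ∈ q, p : ℕ) : ℝ) := by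
    rw [Nat.cast_prod, ← Finset.prod_div_distrib]
    refine Finset.prod_congr rfl fun p _ => ?_
    rw [div_div, sq]
  rw [h5]
  ring

theorem ov_le (T : Finset ℕ) (D p H : ℕ) (hT : T ⊆ range (H + 1)) (hD : H < D) :
    ov T D p ≤ ((T ×ˢ T).filter fun e => p ∣ D + e.1 - e.2).card := by
  classical
  have h1 : ((range p).filter (fun x => ¬ av T p x ∧ ¬ av T p ((x + D) % p))) ⊆
      ((T ×ˢ T).filter fun e => p ∣ D + e.1 - e.2).image fun e => e.1 % p := by
    intro x hx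
    obtain ⟨_, h2, h3⟩ := mem_filter.1 hx
    unfold av at h2 h3
    push Not at h2 h3
    obtain ⟨t, ht, e⟩ := h2
    obtain ⟨t', ht', e'⟩ := h3
    refine mem_image.2 ⟨(t, t'), mem_filter.2 ⟨mem_product.2 ⟨ht, ht'⟩, ?_⟩, e⟩
    have h4 : t' ≤ D + t := by
      have := Finset.mem_range.1 (hT ht')
      omega
    refine (Nat.modEq_iff_dvd' h4).1 ?_
    show t' % p = (D + t) % p
    rw [e', ← e, Nat.mod_add_mod, add_comm]
  have h2 := (Finset.card_le_card h1).trans Finset.card_image_le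
  unfold ov
  convert h2

theorem one_add_sum_le {ι : Type} (s : Finset ι) (f : ι → ℝ) (hf : ∀ i ∈ s, 0 ≤ f i) :
    1 + ∑ i ∈ s, f i ≤ ∏ i ∈ s, (1 + f i) := by
  classical
  induction s using Finset.induction_on with
  | empty => simp
  | insert a s ha ih =>
    rw [Finset.sum_insert ha, Finset.prod_insert ha]
    have h1 := ih fun i hi => hf i (Finset.mem_insert_of_mem hi)
    have h2 := hf a (Finset.mem_insert_self a s)
    have h3 : 0 ≤ ∑ i ∈ s, f i := Finset.sum_nonneg fun i hi => hf i (Finset.mem_insert_of_mem hi)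
    nlinarith [mul_nonneg h2 h3]

theorem exp_le {x : ℝ} (h0 : 0 ≤ x) (h1 : x ≤ 1 / 2) : Real.exp x ≤ 1 + 2 * x := by
  refine (Real.exp_bound_div_one_sub_of_interval h0 (by linarith)).trans ?_
  rw [div_le_iff₀ (by linarith)]
  nlinarith

/-- the small primes -/
theorem P3 (S T : Finset ℕ) (D H : ℕ) (hT : T ⊆ range (H + 1)) (hD : H < D) (hTne : T.Nonempty)
    (hS : ∀ p ∈ S, 8 * (T.card : ℝ) ^ 2 ≤ p) (hSp : ∀ p ∈ S, 0 < p) :
    ∏ p ∈ S, (1 + 4 * (ov T D p : ℝ) / p) ≤ (1 / (T.card : ℝ) ^ 2) *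
      ∑ e ∈ T ×ˢ T, ∏ p ∈ S, (1 + if p ∣ D + e.1 - e.2 then 8 * (T.card : ℝ) ^ 2 / (p : ℝ) else 0) := by
  classical
  have hk : 0 < T.card := Finset.card_pos.2 hTne
  obtain ⟨j, hj⟩ : ∃ j, j = T.card ^ 2 := ⟨_, rfl⟩
  have hj0 : j ≠ 0 := by rw [hj]; positivity
  have hjr : (j : ℝ) = (T.card : ℝ) ^ 2 := by rw [hj]; push_cast; ring
  have hjc : (T ×ˢ T).card = j := by rw [Finset.card_product, hj, sq]
  rw [← hjr]
  obtain ⟨y, hy⟩ : ∃ y : ℕ × ℕ → ℝ, ∀ e, y e = ∏ p ∈ S, (1 + if p ∣ D + e.1 - e.2 then 4 / (p : ℝ) else 0) :=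
    ⟨fun e => ∏ p ∈ S, (1 + if p ∣ D + e.1 - e.2 then 4 / (p : ℝ) else 0), fun _ => rfl⟩
  have hnn : ∀ (e : ℕ × ℕ) (p : ℕ), (0 : ℝ) ≤ if p ∣ D + e.1 - e.2 then 4 / (p : ℝ) else 0 := by
    intro e p
    split_ifs <;> positivity
  have hy0 : ∀ e, 0 ≤ y e := fun e => by
    rw [hy]
    exact Finset.prod_nonneg fun p _ => by linarith [hnn e p]
  have s1 : ∏ p ∈ S, (1 + 4 * (ov T D p : ℝ) / p) ≤ ∏ e ∈ T ×ˢ T, y e := by
    simp only [hy]
    rw [Finset.prod_comm]
    refine Finset.prod_le_prod (fun p _ => by positivity) fun p _ => ?_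
    refine le_trans ?_ (one_add_sum_le _ _ fun e _ => hnn e p)
    rw [← Finset.sum_filter, Finset.sum_const, nsmul_eq_mul]
    have h1 : (ov T D p : ℝ) ≤ ((T ×ˢ T).filter fun e => p ∣ D + e.1 - e.2).card := by
      exact_mod_cast ov_le T D p H hT hD
    have h2 : 4 * (ov T D p : ℝ) / p = (ov T D p : ℝ) * (4 / p) := by ring
    rw [h2]
    have h3 : (0 : ℝ) ≤ 4 / (p : ℝ) := by positivity
    nlinarith
  have s2 : ∏ e ∈ T ×ˢ T, y e ≤ ∑ e ∈ T ×ˢ T, (1 / (j : ℝ)) * y e ^ j := by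
    have h1 := Real.geom_mean_le_arith_mean_weighted (T ×ˢ T) (fun _ => (1 / (j : ℝ))) (fun e => y e ^ j)
      (fun _ _ => by positivity) (by
        rw [Finset.sum_const, hjc, nsmul_eq_mul]
        field_simp) fun e _ => pow_nonneg (hy0 e) _
    refine le_trans (le_of_eq ?_) h1
    refine Finset.prod_congr rfl fun e _ => ?_
    rw [one_div]
    exact (Real.pow_rpow_inv_natCast (hy0 e) hj0).symm
  refine s1.trans (s2.trans ?_)
  rw [← Finset.mul_sum]
  refine mul_le_mul_of_nonneg_left (Finset.sum_le_sum fun e _ => ?_) (by positivity)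
  rw [hy, ← Finset.prod_pow]
  refine Finset.prod_le_prod (fun p _ => pow_nonneg (by linarith [hnn e p]) _) fun p hp => ?_
  split_ifs with h
  · have hp0 : (0 : ℝ) < p := by exact_mod_cast hSp p hp
    have h1 : 1 + 4 / (p : ℝ) ≤ Real.exp (4 / p) := by
      have := Real.add_one_le_exp (4 / (p : ℝ))
      linarith
    calc (1 + 4 / (p : ℝ)) ^ j ≤ Real.exp (4 / p) ^ j := pow_le_pow_left₀ (by positivity) h1 j
      _ = Real.exp (j * (4 / p)) := by rw [← Real.exp_nat_mul]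
      _ ≤ 1 + 2 * (j * (4 / p)) := by
          refine exp_le (by positivity) ?_
          have h2 := hS p hp
          rw [← hjr] at h2
          rw [← mul_div_assoc, div_le_iff₀ hp0]
          linarith
      _ = 1 + 8 * j / p := by ring
  · simp

end Pool.Agent.V5helper74.LRA
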